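import Pool.Agent.H27.G.R_seed8.H306R2.RG.Defs

/-! Project RG, task CLS: classification of real primitive characters. -/

set_option autoImplicit false

namespace Pool.Agent.H987R2.RGCLS

open Finset Pool.Agent.H306R2.RZ Pool.Agent.H306R2.RG

noncomputable section

/-- character values at integers -/
def f {N : ℕ} (χ : DirichletCharacter ℂ N) (a : ℤ) : ℂ := χ (a : ZMod N)

variable {N : ℕ} {χ : DirichletCharacter ℂ N}

theorem f_mul (a b : ℤ) : f χ (a * b) = f χ a * f χ b := by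
  simp [f]

theorem f_congr {a b : ℤ} (h : (N : ℤ) ∣ a - b) : f χ a = f χ b := by
  unfold f
  congr 1
  rw [← sub_eq_zero, ← Int.cast_sub, ZMod.intCast_zmod_eq_zero_iff_dvd]
  exact h

theorem f_one : f χ 1 = 1 := by simp [f]

theorem f_ne {a : ℤ} (ha : IsCoprime a (N : ℤ)) : f χ a ≠ 0 := (χ.apply_ne_zero_iff a).2 ha

theorem f_zero {a : ℤ} (ha : ¬ IsCoprime a (N : ℤ)) : f χ a = 0 := (χ.apply_eq_zero_iff a).2 ha

theorem f_sq (h2 : χ ^ 2 = 1) {a : ℤ} (ha : IsCoprime a (N : ℤ)) : f χ a * f χ a = 1 := by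
  have hu : IsUnit (a : ZMod N) := by
    rw [ZMod.coe_int_isUnit_iff_isCoprime]
    exact ha.symm
  have h := congrArg (fun ψ : DirichletCharacter ℂ N => ψ (a : ZMod N)) h2
  change (χ ^ 2) (a : ZMod N) = (1 : DirichletCharacter ℂ N) (a : ZMod N) at h
  rw [MulChar.one_apply hu, pow_two, MulChar.mul_apply] at h
  exact h

theorem f_pm (h2 : χ ^ 2 = 1) {a : ℤ} (ha : IsCoprime a (N : ℤ)) : f χ a = 1 ∨ f χ a = -1 :=
  mul_self_eq_one_iff.1 (f_sq h2 ha)

theorem f_of_sq (h2 : χ ^ 2 = 1) {a b : ℤ} (ha : IsCoprime a (N : ℤ))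
    (h : (N : ℤ) ∣ a - b * b) : f χ a = 1 := by
  obtain ⟨t, ht⟩ := h
  have e : a = b * b + N * t := by linarith
  have h1 : IsCoprime (b * b) (N : ℤ) := by
    rw [e] at ha
    exact IsCoprime.of_add_mul_left_left ha
  have h3 : IsCoprime b (N : ℤ) := h1.of_mul_left_left
  rw [f_congr (b := b * b) ⟨t, ht⟩, f_mul, f_sq h2 h3]

/-- primitivity -/
theorem prim (hN : N ≠ 0) (h1 : χ.IsPrimitive) {d : ℕ} (hd : d ∣ N) (hne : d ≠ N) :
    ∃ a : ℤ, (d : ℤ) ∣ a - 1 ∧ IsCoprime a (N : ℤ) ∧ f χ a ≠ 1 := by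
  have : NeZero N := ⟨hN⟩
  by_contra hc
  push Not at hc
  have hf : χ.FactorsThrough d := by
    rw [DirichletCharacter.factorsThrough_iff_ker_unitsMap hd]
    intro x hx
    rw [MonoidHom.mem_ker] at hx ⊢
    have e1 : (((x : ZMod N).val : ℤ) : ZMod N) = x := by
      rw [Int.cast_natCast, ZMod.natCast_val, ZMod.cast_id', id]
    have e2 : (d : ℤ) ∣ ((x : ZMod N).val : ℤ) - 1 := by
      have h3 := congrArg (fun u : (ZMod d)ˣ => (u : ZMod d)) hx
      simp only [ZMod.unitsMap_val, Units.val_one] at h3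
      rw [← ZMod.intCast_zmod_eq_zero_iff_dvd, Int.cast_sub, Int.cast_one, Int.cast_natCast,
        ZMod.natCast_val, h3, sub_self]
    have e3 : IsCoprime ((x : ZMod N).val : ℤ) (N : ℤ) := by
      rw [Nat.isCoprime_iff_coprime]
      exact ZMod.val_coe_unit_coprime x
    have e4 := hc _ e2 e3
    unfold f at e4
    rw [e1] at e4
    ext
    rw [MulChar.coe_toUnitHom, e4, Units.val_one]
  have h3 : N ≤ d := by
    have := Nat.sInf_le (s := χ.conductorSet) hf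
    have h4 : χ.conductor = N := h1
    unfold DirichletCharacter.conductor at h4
    omega
  exact hne (le_antisymm (Nat.le_of_dvd (Nat.pos_of_ne_zero hN) hd) h3)

/-- the level is squarefree at odd primes -/
theorem sqf_odd (hN : N ≠ 0) (h1 : χ.IsPrimitive) (h2 : χ ^ 2 = 1) {p : ℕ} (hp : p.Prime)
    (hp2 : p ≠ 2) : ¬ p * p ∣ N := by
  rintro ⟨R, hR⟩
  obtain ⟨h, hh⟩ : ∃ h : ℕ, p = 2 * h + 1 := hp.odd_of_ne_two hp2
  obtain ⟨a, ⟨t, ht⟩, ha, hf⟩ := prim (d := p * R) hN h1 ⟨p, by rw [hR]; ring⟩ (by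
    intro h3
    rw [hR] at h3
    have hpR : 0 < p * R := by
      rcases Nat.eq_zero_or_pos (p * R) with h0 | h0
      · exfalso
        apply hN
        rw [hR, mul_assoc, h0, mul_zero]
      · exact h0
    have h4 : p * (p * R) = 1 * (p * R) := by rw [one_mul, ← mul_assoc]; exact h3.symm
    exact hp.one_lt.ne' (Nat.eq_of_mul_eq_mul_right hpR h4))
  apply hf
  apply f_of_sq h2 ha (b := 1 + (p * R : ℕ) * (t * (h + 1)))
  refine ⟨-(t + R * (t * (h + 1)) ^ 2), ?_⟩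
  have e : a = 1 + ((p * R : ℕ) : ℤ) * t := by linarith
  rw [e, hR, hh]
  push_cast
  ring

theorem not16 (hN : N ≠ 0) (h1 : χ.IsPrimitive) (h2 : χ ^ 2 = 1) : ¬ 16 ∣ N := by
  rintro ⟨R, hR⟩
  obtain ⟨a, ⟨t, ht⟩, ha, hf⟩ := prim (d := 8 * R) hN h1 ⟨2, by rw [hR]; ring⟩ (by omega)
  apply hf
  apply f_of_sq h2 ha (b := 1 + 4 * R * t)
  refine ⟨-(R * t ^ 2), ?_⟩
  have e : a = 1 + ((8 * R : ℕ) : ℤ) * t := by linarith
  rw [e, hR]
  push_cast
  ring

theorem not2 (hN : N ≠ 0) (h1 : χ.IsPrimitive) {M : ℕ} (hM : Odd M) : N ≠ 2 * M := by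
  intro hNM
  have hM0 : 0 < M := hM.pos
  obtain ⟨a, hd, ha, hf⟩ := prim (d := M) hN h1 ⟨2, by rw [hNM]; ring⟩ (by omega)
  apply hf
  rw [← f_one (χ := χ)]
  apply f_congr
  have hc : IsCoprime (2 : ℤ) (M : ℤ) := by
    have : Nat.Coprime 2 M := (Nat.coprime_two_left).2 hM
    exact_mod_cast (Nat.isCoprime_iff_coprime).2 this
  rw [hNM, Nat.cast_mul]
  push_cast
  refine hc.mul_dvd ?_ hd
  have h3 : IsCoprime a (2 : ℤ) := by
    rw [hNM, Nat.cast_mul] at ha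
    exact_mod_cast ha.of_mul_right_left
  have h4 : Odd a := by
    rcases Int.even_or_odd a with h | h
    · exfalso
      obtain ⟨b, hb⟩ := h
      have := h3.isUnit_of_dvd' (show (2 : ℤ) ∣ a from ⟨b, by linarith⟩) (dvd_refl 2)
      rw [Int.isUnit_iff] at this
      omega
    · exact h
  obtain ⟨b, hb⟩ := h4
  exact ⟨b, by linarith⟩

theorem level (hN : N ≠ 0) (h1 : χ.IsPrimitive) (h2 : χ ^ 2 = 1) :
    ∃ k M : ℕ, N = 2 ^ k * M ∧ Odd M ∧ Squarefree M ∧ (k = 0 ∨ k = 2 ∨ k = 3) := by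
  obtain ⟨k, M, hM, hNM⟩ := Nat.exists_eq_two_pow_mul_odd hN
  refine ⟨k, M, hNM, hM, ?_, ?_⟩
  · rw [Nat.squarefree_iff_prime_squarefree]
    intro p hp hpM
    by_cases hp2 : p = 2
    · subst hp2
      have : 2 ∣ M := dvd_trans ⟨2, rfl⟩ hpM
      rw [Nat.odd_iff] at hM
      omega
    · exact sqf_odd hN h1 h2 hp hp2 (hpM.trans ⟨2 ^ k, by rw [hNM]; ring⟩)
  · have h3 : k < 4 := by
      by_contra h
      push Not at h
      apply not16 hN h1 h2
      rw [hNM]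
      exact Dvd.dvd.mul_right ((show (16 : ℕ) = 2 ^ 4 by norm_num) ▸ pow_dvd_pow 2 h) _
    have h4 : k ≠ 1 := by
      rintro rfl
      exact not2 hN h1 hM (by rw [hNM]; ring)
    omega

theorem odd_of_coprime {a : ℤ} (hN2 : 2 ∣ N) (ha : IsCoprime a (N : ℤ)) : Odd a := by
  rcases Int.even_or_odd a with h | h
  · exfalso
    obtain ⟨b, hb⟩ := h
    have := ha.isUnit_of_dvd' (show (2 : ℤ) ∣ a from ⟨b, by linarith⟩) (by exact_mod_cast hN2)
    rw [Int.isUnit_iff] at this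
    omega
  · exact h

/-- Jacobi symbols and congruences -/
theorem J_congr {a b : ℤ} {m : ℕ} (h : (m : ℤ) ∣ a - b) : jacobiSym a m = jacobiSym b m := by
  apply jacobiSym.mod_left'
  exact (Int.modEq_iff_dvd.2 h).symm

theorem J_one {a : ℤ} {m : ℕ} (h : (m : ℤ) ∣ a - 1) : jacobiSym a m = 1 := by
  rw [J_congr h, jacobiSym.one_left]

theorem J_sq {a : ℤ} {m : ℕ} (h : IsCoprime a (m : ℤ)) : jacobiSym a m * jacobiSym a m = 1 := by
  rw [← pow_two]
  exact jacobiSym.sq_one (Int.isCoprime_iff_gcd_eq_one.1 h)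

/-- Chinese remainder -/
theorem crt {m n : ℤ} (h : IsCoprime m n) (x y : ℤ) : ∃ w : ℤ, m ∣ w - x ∧ n ∣ w - y := by
  obtain ⟨α, β, e⟩ := h
  refine ⟨x * (β * n) + y * (α * m), ⟨α * (y - x), ?_⟩, ⟨β * (x - y), ?_⟩⟩
  · linear_combination (x : ℤ) * e
  · linear_combination (y : ℤ) * e

theorem cop_of_congr {a b m : ℤ} (h : m ∣ a - b) (hb : IsCoprime b m) : IsCoprime a m := by
  obtain ⟨t, ht⟩ := h
  have e : a = b + m * t := by linarith
  rw [e]
  exact IsCoprime.add_mul_left_left hb t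

/-- the component at an odd prime is the Legendre symbol -/
theorem leg (hN : N ≠ 0) (h1 : χ.IsPrimitive) (h2 : χ ^ 2 = 1) {p R : ℕ} (hp : p.Prime)
    (hR : N = p * R) (hc : Nat.Coprime p R) {w : ℤ} (hw : (R : ℤ) ∣ w - 1)
    (hwN : IsCoprime w (N : ℤ)) : f χ w = ((jacobiSym w p : ℤ) : ℂ) := by
  have : Fact p.Prime := ⟨hp⟩
  have hcz : IsCoprime (p : ℤ) (R : ℤ) := Nat.isCoprime_iff_coprime.2 hc
  have hNz : (N : ℤ) = p * R := by rw [hR, Nat.cast_mul]
  -- squares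
  have key : ∀ w : ℤ, (R : ℤ) ∣ w - 1 → IsCoprime w (N : ℤ) → jacobiSym w p = 1 → f χ w = 1 := by
    intro w hw hwN hJ
    obtain ⟨x, hx⟩ := ZMod.isSquare_of_jacobiSym_eq_one hJ
    obtain ⟨b, hb1, hb2⟩ := crt hcz (x.val : ℤ) 1
    apply f_of_sq h2 hwN (b := b)
    rw [hNz]
    refine hcz.mul_dvd ?_ ?_
    · have e1 : (p : ℤ) ∣ w - (x.val : ℤ) * (x.val : ℤ) := by
        rw [← ZMod.intCast_zmod_eq_zero_iff_dvd]
        push_cast
        rw [ZMod.natCast_val, ZMod.cast_id', id, hx, sub_self]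
      have e2 : (p : ℤ) ∣ (b - (x.val : ℤ)) * (b + (x.val : ℤ)) := hb1.mul_right _
      have e3 := dvd_sub e1 e2
      convert e3 using 1
      ring
    · have e2 : (R : ℤ) ∣ (b - 1) * (b + 1) := hb2.mul_right _
      have e3 := dvd_sub hw e2
      convert e3 using 1
      ring
  have hpR : R ≠ N := by
    intro h
    have hR0 : 0 < R := by
      rcases Nat.eq_zero_or_pos R with h0 | h0
      · exact absurd (h ▸ h0) hN
      · exact h0
    have h4 : p * R = 1 * R := by rw [one_mul, ← hR, h]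
    exact hp.one_lt.ne' (Nat.eq_of_mul_eq_mul_right hR0 h4)
  obtain ⟨a, had, ha, hf⟩ := prim (d := R) hN h1 ⟨p, by rw [hR]; ring⟩ hpR
  have hfa : f χ a = -1 := (f_pm h2 ha).resolve_left hf
  have hJa : jacobiSym a p = -1 := by
    have hap : IsCoprime a (p : ℤ) := by
      rw [hNz] at ha
      exact ha.of_mul_right_left
    rcases jacobiSym.eq_one_or_neg_one (Int.isCoprime_iff_gcd_eq_one.1 hap) with h | h
    · exact absurd (key a had ha h) hf
    · exact h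
  have hwp : IsCoprime w (p : ℤ) := by
    rw [hNz] at hwN
    exact hwN.of_mul_right_left
  rcases jacobiSym.eq_one_or_neg_one (Int.isCoprime_iff_gcd_eq_one.1 hwp) with h | h
  · rw [key w hw hwN h, h, Int.cast_one]
  · have h3 : f χ (w * a) = 1 := by
      refine key (w * a) ?_ (hwN.mul_left ha) ?_
      · rw [show w * a - 1 = w * (a - 1) + (w - 1) by ring]
        exact dvd_add (had.mul_left w) hw
      · rw [jacobiSym.mul_left, h, hJa]
        norm_num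
    rw [f_mul, hfa] at h3
    rw [h, Int.cast_neg, Int.cast_one]
    linear_combination -h3

/-- the odd part -/
theorem oddpart (hN : N ≠ 0) (h1 : χ.IsPrimitive) (h2 : χ ^ 2 = 1) {K M : ℕ} (hKM : N = K * M)
    (hM : Odd M) (hsq : Squarefree M) (hc : Nat.Coprime K M) : ∀ m : ℕ, m ∣ M → ∀ R : ℕ,
    N = m * R → ∀ u : ℤ, (R : ℤ) ∣ u - 1 → IsCoprime u (N : ℤ) →
    f χ u = ((jacobiSym u m : ℤ) : ℂ) := by
  intro m
  induction m using induction_on_primes with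
  | zero =>
    intro h
    rw [zero_dvd_iff] at h
    exact absurd h hM.pos.ne'
  | one =>
    intro _ R hR u hu _
    rw [one_mul] at hR
    rw [jacobiSym.one_right, Int.cast_one, ← f_one (χ := χ)]
    apply f_congr
    rw [hR]
    exact hu
  | prime_mul p a hp ih =>
    intro hpa R hR u hu huN
    have hM0 : M ≠ 0 := hM.pos.ne'
    have hpM : p ∣ M := dvd_trans ⟨a, rfl⟩ hpa
    have haM : a ∣ M := dvd_trans ⟨p, by ring⟩ hpa
    have hp0 : p ≠ 0 := hp.ne_zero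
    have ha0 : a ≠ 0 := by
      rintro rfl
      rw [zero_dvd_iff] at haM
      exact hM0 haM
    have nsq : ¬ p * p ∣ M := fun h =>
      (Nat.squarefree_iff_prime_squarefree.1 hsq) p hp h
    have hpa' : ¬ p ∣ a := fun ⟨b, hb⟩ => nsq (dvd_trans ⟨b, by rw [hb]; ring⟩ hpa)
    have hpR : ¬ p ∣ R := by
      rintro ⟨b, hb⟩
      obtain ⟨m', hm'⟩ := hpa
      have e : p * a * (p * b) = p * a * (K * m') := by
        calc p * a * (p * b) = N := by rw [hR, hb]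
          _ = K * M := hKM
          _ = p * a * (K * m') := by rw [hm']; ring
      have e2 : p * b = K * m' := Nat.eq_of_mul_eq_mul_left (by positivity) e
      rcases (hp.dvd_mul).1 (show p ∣ K * m' from ⟨b, e2.symm⟩) with h | h
      · have := Nat.Coprime.eq_one_of_dvd (hc.coprime_dvd_left h) hpM
        exact hp.one_lt.ne' this
      · obtain ⟨c, hc'⟩ := h
        exact nsq ⟨a * c, by rw [hm', hc']; ring⟩
    have hcop : Nat.Coprime p (a * R) :=
      Nat.Coprime.mul_right ((Nat.Prime.coprime_iff_not_dvd hp).2 hpa')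
        ((Nat.Prime.coprime_iff_not_dvd hp).2 hpR)
    have hcz : IsCoprime (p : ℤ) ((a * R : ℕ) : ℤ) := Nat.isCoprime_iff_coprime.2 hcop
    have hcR : IsCoprime (p : ℤ) (R : ℤ) :=
      Nat.isCoprime_iff_coprime.2 ((Nat.Prime.coprime_iff_not_dvd hp).2 hpR)
    have hNz : (N : ℤ) = p * (a * R : ℕ) := by rw [hR]; push_cast; ring
    have hup : IsCoprime u (p : ℤ) := by
      rw [hNz] at huN
      exact huN.of_mul_right_left
    obtain ⟨c, e, hce⟩ := hup
    obtain ⟨w, hw1, hw2⟩ := crt hcz c 1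
    have huw : (p : ℤ) ∣ u * w - 1 := by
      obtain ⟨t, ht⟩ := hw1
      refine ⟨u * t - e, ?_⟩
      linear_combination u * ht + hce
    have hwp : IsCoprime w (p : ℤ) := by
      obtain ⟨t, ht⟩ := huw
      exact ⟨u, -t, by linarith⟩
    have hwaR : IsCoprime w ((a * R : ℕ) : ℤ) := cop_of_congr hw2 isCoprime_one_left
    have hwN : IsCoprime w (N : ℤ) := by
      rw [hNz]
      exact hwp.mul_right hwaR
    have hwR : (R : ℤ) ∣ w - 1 := dvd_trans ⟨a, by push_cast; ring⟩ hw2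
    have hwa : (a : ℤ) ∣ w - 1 := dvd_trans ⟨R, by push_cast; ring⟩ hw2
    have huwR : (R : ℤ) ∣ u * w - 1 := by
      rw [show u * w - 1 = u * (w - 1) + (u - 1) by ring]
      exact dvd_add (hwR.mul_left u) hu
    have h3 := ih haM (p * R) (by rw [hR]; ring) (u * w) (by
      push_cast
      exact hcR.mul_dvd huw huwR) (huN.mul_left hwN)
    have h4 := leg hN h1 h2 hp (R := a * R) (by rw [hR]; ring) hcop hw2 hwN
    rw [f_mul, h4, jacobiSym.mul_left, J_one hwa, mul_one] at h3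
    have h5 : jacobiSym u p * jacobiSym w p = 1 := by
      rw [← jacobiSym.mul_left]
      exact J_one huw
    rw [jacobiSym.mul_right' u hp0 ha0, Int.cast_mul, ← h3]
    have h6 : ((jacobiSym u p : ℤ) : ℂ) * ((jacobiSym w p : ℤ) : ℂ) = 1 := by exact_mod_cast h5
    linear_combination (-(f χ u)) * h6

/-- values for odd `n'` and powers of two -/
theorem cf_eq (φ : FD) (d v m : ℕ) (hm : Odd m) :
    cf φ d (2 ^ v * m) = φ.η ^ v * ((jacobiSym (φ.e * (d : ℤ)) m : ℤ) : ℝ) := by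
  have hm0 : m ≠ 0 := hm.pos.ne'
  have h1 : (2 ^ v * m).factorization 2 = v := by
    rw [Nat.factorization_mul (by positivity) hm0, Finsupp.add_apply, Nat.factorization_pow,
      Finsupp.smul_apply, Nat.Prime.factorization_self Nat.prime_two,
      Nat.factorization_eq_zero_of_not_dvd (by rw [Nat.odd_iff] at hm; omega)]
    simp
  unfold cf
  rw [h1, Nat.mul_div_cancel_left _ (by positivity), jo, if_pos hm, js]

theorem chi4_sq {m : ℕ} (hm : Odd m) : (ZMod.χ₄ m : ℤ) * ZMod.χ₄ m = 1 := by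
  rw [Nat.odd_iff] at hm
  have : m % 4 = 1 ∨ m % 4 = 3 := by omega
  rcases this with h | h
  · rw [ZMod.χ₄_nat_one_mod_four h]
    norm_num
  · rw [ZMod.χ₄_nat_three_mod_four h]
    norm_num

theorem chi8p_mod (m : ℕ) : ZMod.χ₈' m = ZMod.χ₈' ((m % 8 : ℕ) : ZMod 8) := by
  rw [ZMod.natCast_mod m 8]

theorem rec1 {M m : ℕ} (hM : M % 4 = 1) (hm : Odd m) :
    jacobiSym m M = jacobiSym (M : ℤ) m :=
  (jacobiSym.quadratic_reciprocity_one_mod_four hM hm).symm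

theorem rec3 {M m : ℕ} (hM : M % 4 = 3) (hm : Odd m) :
    jacobiSym m M = jacobiSym (-(M : ℤ)) m := by
  rw [jacobiSym.neg _ hm]
  have hm' := hm
  rw [Nat.odd_iff] at hm'
  have : m % 4 = 1 ∨ m % 4 = 3 := by omega
  rcases this with h | h
  · rw [ZMod.χ₄_nat_one_mod_four h, one_mul,
      jacobiSym.quadratic_reciprocity_one_mod_four h (by rw [Nat.odd_iff]; omega)]
  · rw [ZMod.χ₄_nat_three_mod_four h, jacobiSym.quadratic_reciprocity_three_mod_four h hM]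
    ring

/-- conclusion for `k = 0` -/
theorem case0 (h3 : χ ≠ 1) (hM : Odd N) (hsq : Squarefree N)
    (hf : ∀ u : ℤ, IsCoprime u (N : ℤ) → f χ u = ((jacobiSym u N : ℤ) : ℂ)) :
    ∃ (φ : FD) (d : ℕ), Fam φ ∧ φ.A d ∧ Squarefree d ∧ N = φ.r * d ∧
      ∀ n : ℕ, n ≠ 0 → χ (n : ZMod N) = ((cf φ d n : ℝ) : ℂ) := by
  have hf' : ∀ n : ℕ, χ (n : ZMod N) = ((jacobiSym n N : ℤ) : ℂ) := by
    intro n
    by_cases h : IsCoprime (n : ℤ) (N : ℤ)
    · have := hf n h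
      unfold f at this
      rw [Int.cast_natCast] at this
      exact this
    · have h4 := f_zero (χ := χ) h
      unfold f at h4
      rw [Int.cast_natCast] at h4
      rw [h4, (jacobiSym.eq_zero_iff).2 ⟨hM.pos.ne', ?_⟩, Int.cast_zero]
      rwa [Int.isCoprime_iff_gcd_eq_one] at h
  have hN1 : N ≠ 1 := by
    rintro rfl
    exact h3 (DirichletCharacter.level_one χ)
  have hnsq : ¬ IsSquare (N : ℤ) := by
    rintro ⟨x, hx⟩
    have h4 : x.natAbs * x.natAbs = N := by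
      have := congrArg Int.natAbs hx
      rw [Int.natAbs_mul, Int.natAbs_natCast] at this
      exact this.symm
    have h5 := hsq x.natAbs ⟨1, by rw [mul_one]; exact h4.symm⟩
    rw [Nat.isUnit_iff] at h5
    rw [h5] at h4
    exact hN1 h4.symm
  have hlt : N % 8 = 1 ∨ N % 8 = 3 ∨ N % 8 = 5 ∨ N % 8 = 7 := by
    rw [Nat.odd_iff] at hM
    omega
  -- the four cases
  have fin : ∀ ε c : ℤ, (ε = 1 ∨ ε = -1) → (c = 1 ∨ c = 5) → (ε * (N : ℤ)) % 8 = c →
      ¬ IsSquare (ε * (N : ℤ)) →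
      (jacobiSym 2 N = if c = 1 then 1 else -1) →
      (∀ m : ℕ, Odd m → jacobiSym m N = jacobiSym (ε * (N : ℤ)) m) →
      ∃ (φ : FD) (d : ℕ), Fam φ ∧ φ.A d ∧ Squarefree d ∧ N = φ.r * d ∧
      ∀ n : ℕ, n ≠ 0 → χ (n : ZMod N) = ((cf φ d n : ℝ) : ℂ) := by
    intro ε c hε hc h8 hns h2 hm
    refine ⟨F1 ε c, N, ⟨ε, hε, ?_⟩, ⟨h8, hns⟩, hsq, by simp [F1], ?_⟩
    · rcases hc with rfl | rfl
      · exact Or.inr (Or.inr (Or.inl rfl))
      · exact Or.inr (Or.inr (Or.inr rfl))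
    · intro n hn
      obtain ⟨v, m, hmo, rfl⟩ := Nat.exists_eq_two_pow_mul_odd hn
      rw [cf_eq _ _ _ _ hmo, hf']
      push_cast
      rw [jacobiSym.mul_left, jacobiSym.pow_left, h2, hm m hmo]
      have e1 : (F1 ε c).η = if c = 1 then 1 else -1 := rfl
      have e2 : (F1 ε c).e = ε := rfl
      rw [e1, e2]
      push_cast
      split_ifs <;> simp
  rcases hlt with h | h | h | h
  · refine fin 1 1 (Or.inl rfl) (Or.inl rfl) (by omega) (by rwa [one_mul]) ?_ ?_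
    · rw [jacobiSym.at_two hM, ZMod.χ₈_nat_mod_eight, h]
      rfl
    · intro m hm
      rw [one_mul, jacobiSym.quadratic_reciprocity_one_mod_four (by omega) hm]
  · refine fin (-1) 5 (Or.inr rfl) (Or.inr rfl) (by omega) ?_ ?_ ?_
    · rintro ⟨x, hx⟩
      have := hM.pos
      nlinarith [mul_self_nonneg x]
    · rw [jacobiSym.at_two hM, ZMod.χ₈_nat_mod_eight, h]
      rfl
    · intro m hm
      rw [rec3 (by omega) hm, neg_one_mul]
  · refine fin 1 5 (Or.inl rfl) (Or.inr rfl) (by omega) (by rwa [one_mul]) ?_ ?_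
    · rw [jacobiSym.at_two hM, ZMod.χ₈_nat_mod_eight, h]
      rfl
    · intro m hm
      rw [one_mul, jacobiSym.quadratic_reciprocity_one_mod_four (by omega) hm]
  · refine fin (-1) 1 (Or.inr rfl) (Or.inl rfl) (by omega) ?_ ?_ ?_
    · rintro ⟨x, hx⟩
      have := hM.pos
      nlinarith [mul_self_nonneg x]
    · rw [jacobiSym.at_two hM, ZMod.χ₈_nat_mod_eight, h]
      rfl
    · intro m hm
      rw [rec3 (by omega) hm, neg_one_mul]

/-- conclusion for `k = 2, 3` -/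
theorem fin2 {K M : ℕ} (hKM : N = K * M) (hK : 2 ∣ K) (hM : Odd M) (φ : FD) (hη : φ.η = 0)
    (s : ℕ → ℤ)
    (hf : ∀ m : ℕ, IsCoprime (m : ℤ) (N : ℤ) → f χ m = ((s m * jacobiSym m M : ℤ) : ℂ))
    (hK2 : ∀ m : ℕ, Odd m → IsCoprime (m : ℤ) (K : ℤ))
    (he : ∀ m : ℕ, Odd m → s m * jacobiSym m M = jacobiSym (φ.e * (M : ℤ)) m) (n : ℕ)
    (hn : n ≠ 0) : χ (n : ZMod N) = ((cf φ M n : ℝ) : ℂ) := by
  obtain ⟨v, m, hm, rfl⟩ := Nat.exists_eq_two_pow_mul_odd hn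
  rw [cf_eq _ _ _ _ hm, hη]
  rcases Nat.eq_zero_or_pos v with rfl | hv
  · rw [pow_zero, one_mul, pow_zero, one_mul]
    by_cases h : IsCoprime (m : ℤ) (N : ℤ)
    · have := hf m h
      unfold f at this
      rw [Int.cast_natCast] at this
      rw [this, he m hm]
      push_cast
      rfl
    · have h4 := f_zero (χ := χ) h
      unfold f at h4
      rw [Int.cast_natCast] at h4
      rw [h4, ← he m hm, (jacobiSym.eq_zero_iff).2 ⟨hM.pos.ne', ?_⟩, mul_zero]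
      · simp
      · intro h5
        apply h
        rw [hKM, Nat.cast_mul]
        exact (hK2 m hm).mul_right (Int.isCoprime_iff_gcd_eq_one.2 h5)
  · rw [zero_pow hv.ne', zero_mul]
    have h : ¬ IsCoprime ((2 ^ v * m : ℕ) : ℤ) (N : ℤ) := by
      intro h
      have := odd_of_coprime (hK.trans ⟨M, hKM⟩) h
      rw [Int.odd_iff] at this
      have h2 : (2 : ℤ) ∣ ((2 ^ v * m : ℕ) : ℤ) := by
        exact_mod_cast Dvd.dvd.mul_right (dvd_pow_self 2 hv.ne') m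
      omega
    have h4 := f_zero (χ := χ) h
    unfold f at h4
    rw [Int.cast_natCast] at h4
    rw [h4]
    simp

theorem cop2 (j : ℕ) (m : ℕ) (hm : Odd m) : IsCoprime (m : ℤ) ((2 ^ j : ℕ) : ℤ) := by
  rw [Nat.isCoprime_iff_coprime]
  exact Nat.Coprime.pow_right _ ((Nat.coprime_two_right).2 hm)

theorem case2 {M : ℕ} (hN : N ≠ 0) (h1 : χ.IsPrimitive) (h2 : χ ^ 2 = 1) (hKM : N = 4 * M)
    (hM : Odd M) (hsq : Squarefree M) :
    ∃ (φ : FD) (d : ℕ), Fam φ ∧ φ.A d ∧ Squarefree d ∧ N = φ.r * d ∧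
      ∀ n : ℕ, n ≠ 0 → χ (n : ZMod N) = ((cf φ d n : ℝ) : ℂ) := by
  have hM0 := hM.pos
  have hop := oddpart hN h1 h2 (K := 4) hKM hM hsq (by
    rw [show (4 : ℕ) = 2 ^ 2 by norm_num]
    exact Nat.Coprime.pow_left _ ((Nat.coprime_two_left).2 hM)) M dvd_rfl 4 (by rw [hKM]; ring)
  obtain ⟨a, had, ha, hfa⟩ := prim (d := M) hN h1 ⟨4, by rw [hKM]; ring⟩ (by omega)
  have hfa' : f χ a = -1 := (f_pm h2 ha).resolve_left hfa
  have hNe : 2 ∣ N := ⟨2 * M, by rw [hKM]; ring⟩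
  have hao := odd_of_coprime hNe ha
  rw [Int.odd_iff] at hao
  have ha4 : a % 4 = 3 := by
    by_contra h
    apply hfa
    rw [hop a (by push_cast; omega) ha, J_one had, Int.cast_one]
  have hf : ∀ m : ℕ, IsCoprime (m : ℤ) (N : ℤ) →
      f χ m = ((ZMod.χ₄ m * jacobiSym m M : ℤ) : ℂ) := by
    intro m hm
    have hmo := odd_of_coprime hNe hm
    rw [Int.odd_iff] at hmo
    have : m % 4 = 1 ∨ m % 4 = 3 := by omega
    rcases this with h | h
    · rw [ZMod.χ₄_nat_one_mod_four h, one_mul]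
      exact hop m (by push_cast; omega) hm
    · rw [ZMod.χ₄_nat_three_mod_four h]
      have h5 := hop (m * a) (by
        push_cast
        have : ((m : ℤ) * a) % 4 = 1 := by
          rw [Int.mul_emod, ha4, show (m : ℤ) % 4 = 3 by omega]
          norm_num
        omega) (hm.mul_left ha)
      rw [f_mul, hfa', jacobiSym.mul_left, J_one had, mul_one] at h5
      push_cast
      linear_combination -h5
  have hlt : M % 4 = 1 ∨ M % 4 = 3 := by
    rw [Nat.odd_iff] at hM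
    omega
  rcases hlt with h | h
  · refine ⟨F4 (-1), M, ⟨-1, Or.inr rfl, Or.inr (Or.inl rfl)⟩, ?_, hsq, hKM, ?_⟩
    · show ((-1 : ℤ) * (M : ℤ)) % 4 = 3
      omega
    · refine fin2 hKM ⟨2, rfl⟩ hM (F4 (-1)) rfl (fun m => ZMod.χ₄ m) hf (cop2 2) ?_
      intro m hm
      show ZMod.χ₄ m * jacobiSym m M = jacobiSym ((-1 : ℤ) * (M : ℤ)) m
      rw [neg_one_mul, jacobiSym.neg _ hm, rec1 h hm]
  · refine ⟨F4 1, M, ⟨1, Or.inl rfl, Or.inr (Or.inl rfl)⟩, ?_, hsq, hKM, ?_⟩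
    · show ((1 : ℤ) * (M : ℤ)) % 4 = 3
      omega
    · refine fin2 hKM ⟨2, rfl⟩ hM (F4 1) rfl (fun m => ZMod.χ₄ m) hf (cop2 2) ?_
      intro m hm
      show ZMod.χ₄ m * jacobiSym m M = jacobiSym ((1 : ℤ) * (M : ℤ)) m
      rw [one_mul, rec3 h hm, jacobiSym.neg _ hm, ← mul_assoc, chi4_sq hm, one_mul]

theorem case3 {M : ℕ} (hN : N ≠ 0) (h1 : χ.IsPrimitive) (h2 : χ ^ 2 = 1) (hKM : N = 8 * M)
    (hM : Odd M) (hsq : Squarefree M) :
    ∃ (φ : FD) (d : ℕ), Fam φ ∧ φ.A d ∧ Squarefree d ∧ N = φ.r * d ∧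
      ∀ n : ℕ, n ≠ 0 → χ (n : ZMod N) = ((cf φ d n : ℝ) : ℂ) := by
  have hM0 := hM.pos
  have hop := oddpart hN h1 h2 (K := 8) hKM hM hsq (by
    rw [show (8 : ℕ) = 2 ^ 3 by norm_num]
    exact Nat.Coprime.pow_left _ ((Nat.coprime_two_left).2 hM)) M dvd_rfl 8 (by rw [hKM]; ring)
  obtain ⟨a, had, ha, hfa⟩ := prim (d := 4 * M) hN h1 ⟨2, by rw [hKM]; ring⟩ (by omega)
  have hfa' : f χ a = -1 := (f_pm h2 ha).resolve_left hfa
  have hadM : (M : ℤ) ∣ a - 1 := dvd_trans ⟨4, by push_cast; ring⟩ had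
  have had4 : (4 : ℤ) ∣ a - 1 := dvd_trans ⟨M, by push_cast; ring⟩ had
  have hNe : 2 ∣ N := ⟨4 * M, by rw [hKM]; ring⟩
  have ha8 : a % 8 = 5 := by
    by_contra h
    apply hfa
    rw [hop a (by push_cast; omega) ha, J_one hadM, Int.cast_one]
  have hc8 : IsCoprime ((8 : ℕ) : ℤ) (M : ℤ) := by
    rw [Nat.isCoprime_iff_coprime, show (8 : ℕ) = 2 ^ 3 by norm_num]
    exact Nat.Coprime.pow_left _ ((Nat.coprime_two_left).2 hM)
  obtain ⟨b, hb8, hbM⟩ := crt hc8 3 1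
  have hb : IsCoprime b (N : ℤ) := by
    rw [hKM, Nat.cast_mul]
    refine (cop_of_congr hb8 ?_).mul_right (cop_of_congr hbM isCoprime_one_left)
    exact ⟨3, -1, by norm_num⟩
  have hb8' : b % 8 = 3 := by
    push_cast at hb8
    omega
  -- the values
  obtain ⟨s3, hs3, hfb⟩ : ∃ s3 : ℤ, (s3 = 1 ∨ s3 = -1) ∧ f χ b = ((s3 : ℤ) : ℂ) := by
    rcases f_pm h2 hb with h | h
    · exact ⟨1, Or.inl rfl, by rw [h, Int.cast_one]⟩
    · exact ⟨-1, Or.inr rfl, by rw [h]; norm_num⟩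
  have v1 : ∀ m : ℕ, m % 8 = 1 → IsCoprime (m : ℤ) (N : ℤ) →
      f χ m = ((jacobiSym m M : ℤ) : ℂ) := fun m h hm => hop m (by push_cast; omega) hm
  have v5 : ∀ m : ℕ, m % 8 = 5 → IsCoprime (m : ℤ) (N : ℤ) →
      f χ m = ((-jacobiSym m M : ℤ) : ℂ) := by
    intro m h hm
    have h5 := hop (m * a) (by
      push_cast
      have : ((m : ℤ) * a) % 8 = 1 := by
        rw [Int.mul_emod, ha8, show (m : ℤ) % 8 = 5 by omega]
        norm_num
      omega) (hm.mul_left ha)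
    rw [f_mul, hfa', jacobiSym.mul_left, J_one hadM, mul_one] at h5
    push_cast
    linear_combination -h5
  have hss : ((s3 : ℤ) : ℂ) * s3 = 1 := by
    rcases hs3 with rfl | rfl <;> norm_num
  have v3 : ∀ m : ℕ, m % 8 = 3 → IsCoprime (m : ℤ) (N : ℤ) →
      f χ m = ((s3 * jacobiSym m M : ℤ) : ℂ) := by
    intro m h hm
    have h5 := hop (m * b) (by
      push_cast
      have : ((m : ℤ) * b) % 8 = 1 := by
        rw [Int.mul_emod, hb8', show (m : ℤ) % 8 = 3 by omega]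
        norm_num
      omega) (hm.mul_left hb)
    rw [f_mul, hfb, jacobiSym.mul_left, J_one hbM, mul_one] at h5
    push_cast
    linear_combination (s3 : ℂ) * h5 - f χ m * hss
  have v7 : ∀ m : ℕ, m % 8 = 7 → IsCoprime (m : ℤ) (N : ℤ) →
      f χ m = ((-s3 * jacobiSym m M : ℤ) : ℂ) := by
    intro m h hm
    have h5 := hop (m * a * b) (by
      push_cast
      have : ((m : ℤ) * a * b) % 8 = 1 := by
        rw [Int.mul_emod, Int.mul_emod (m : ℤ) a, ha8, hb8', show (m : ℤ) % 8 = 7 by omega]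
        norm_num
      omega) ((hm.mul_left ha).mul_left hb)
    rw [f_mul, f_mul, hfb, hfa', jacobiSym.mul_left, jacobiSym.mul_left, J_one hbM,
      J_one hadM, mul_one, mul_one] at h5
    push_cast
    linear_combination (-(s3 : ℂ)) * h5 - f χ m * hss
  have hodd8 : ∀ m : ℕ, IsCoprime (m : ℤ) (N : ℤ) → m % 8 = 1 ∨ m % 8 = 3 ∨ m % 8 = 5 ∨
      m % 8 = 7 := by
    intro m hm
    have hmo := odd_of_coprime hNe hm
    rw [Int.odd_iff] at hmo
    omega
  have hlt : M % 4 = 1 ∨ M % 4 = 3 := by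
    rw [Nat.odd_iff] at hM
    omega
  rcases hs3 with rfl | rfl
  · have hf : ∀ m : ℕ, IsCoprime (m : ℤ) (N : ℤ) →
        f χ m = ((ZMod.χ₈' m * jacobiSym m M : ℤ) : ℂ) := by
      intro m hm
      rcases hodd8 m hm with h | h | h | h
      · rw [v1 m h hm, chi8p_mod, h]
        norm_num [show ZMod.χ₈' (1 : ℕ) = 1 from rfl]
      · rw [v3 m h hm, chi8p_mod, h, show ZMod.χ₈' (3 : ℕ) = 1 from rfl]
      · rw [v5 m h hm, chi8p_mod, h, show ZMod.χ₈' (5 : ℕ) = -1 from rfl]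
        push_cast
        ring
      · rw [v7 m h hm, chi8p_mod, h, show ZMod.χ₈' (7 : ℕ) = -1 from rfl]
    rcases hlt with h | h
    · refine ⟨F8 (-1), M, ⟨-1, Or.inr rfl, Or.inl rfl⟩, hM, hsq, hKM, ?_⟩
      refine fin2 hKM ⟨4, rfl⟩ hM (F8 (-1)) rfl (fun m => ZMod.χ₈' m) hf (cop2 3) ?_
      intro m hm
      show ZMod.χ₈' m * jacobiSym m M = jacobiSym ((2 * (-1) : ℤ) * (M : ℤ)) m
      rw [show (2 * (-1) : ℤ) * (M : ℤ) = (-2) * (M : ℤ) by ring, jacobiSym.mul_left,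
        jacobiSym.at_neg_two hm, rec1 h hm]
    · refine ⟨F8 1, M, ⟨1, Or.inl rfl, Or.inl rfl⟩, hM, hsq, hKM, ?_⟩
      refine fin2 hKM ⟨4, rfl⟩ hM (F8 1) rfl (fun m => ZMod.χ₈' m) hf (cop2 3) ?_
      intro m hm
      show ZMod.χ₈' m * jacobiSym m M = jacobiSym ((2 * 1 : ℤ) * (M : ℤ)) m
      rw [show (2 * 1 : ℤ) * (M : ℤ) = (-2) * (-(M : ℤ)) by ring, jacobiSym.mul_left,
        jacobiSym.at_neg_two hm, rec3 h hm]
  · have hf : ∀ m : ℕ, IsCoprime (m : ℤ) (N : ℤ) →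
        f χ m = ((ZMod.χ₈ m * jacobiSym m M : ℤ) : ℂ) := by
      intro m hm
      rcases hodd8 m hm with h | h | h | h
      · rw [v1 m h hm, ZMod.χ₈_nat_mod_eight, h]
        norm_num [show ZMod.χ₈ (1 : ℕ) = 1 from rfl]
      · rw [v3 m h hm, ZMod.χ₈_nat_mod_eight, h, show ZMod.χ₈ (3 : ℕ) = -1 from rfl]
      · rw [v5 m h hm, ZMod.χ₈_nat_mod_eight, h, show ZMod.χ₈ (5 : ℕ) = -1 from rfl]
        push_cast
        ring
      · rw [v7 m h hm, ZMod.χ₈_nat_mod_eight, h, show ZMod.χ₈ (7 : ℕ) = 1 from rfl]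
        norm_num
    rcases hlt with h | h
    · refine ⟨F8 1, M, ⟨1, Or.inl rfl, Or.inl rfl⟩, hM, hsq, hKM, ?_⟩
      refine fin2 hKM ⟨4, rfl⟩ hM (F8 1) rfl (fun m => ZMod.χ₈ m) hf (cop2 3) ?_
      intro m hm
      show ZMod.χ₈ m * jacobiSym m M = jacobiSym ((2 * 1 : ℤ) * (M : ℤ)) m
      rw [show (2 * 1 : ℤ) * (M : ℤ) = 2 * (M : ℤ) by ring, jacobiSym.mul_left,
        jacobiSym.at_two hm, rec1 h hm]
    · refine ⟨F8 (-1), M, ⟨-1, Or.inr rfl, Or.inl rfl⟩, hM, hsq, hKM, ?_⟩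
      refine fin2 hKM ⟨4, rfl⟩ hM (F8 (-1)) rfl (fun m => ZMod.χ₈ m) hf (cop2 3) ?_
      intro m hm
      show ZMod.χ₈ m * jacobiSym m M = jacobiSym ((2 * (-1) : ℤ) * (M : ℤ)) m
      rw [show (2 * (-1) : ℤ) * (M : ℤ) = 2 * (-(M : ℤ)) by ring, jacobiSym.mul_left,
        jacobiSym.at_two hm, rec3 h hm]

/-- classification -/
theorem CLS (N : ℕ) (hN : N ≠ 0) (χ : DirichletCharacter ℂ N) (h1 : χ.IsPrimitive)
    (h2 : χ ^ 2 = 1) (h3 : χ ≠ 1) :
    ∃ (φ : FD) (d : ℕ), Fam φ ∧ φ.A d ∧ Squarefree d ∧ N = φ.r * d ∧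
      ∀ n : ℕ, n ≠ 0 → χ (n : ZMod N) = ((cf φ d n : ℝ) : ℂ) := by
  obtain ⟨k, M, hNM, hM, hsq, hk⟩ := level hN h1 h2
  rcases hk with rfl | rfl | rfl
  · rw [pow_zero, one_mul] at hNM
    subst hNM
    exact case0 h3 hM hsq (fun u hu => oddpart hN h1 h2 (K := 1) (one_mul _).symm hM hsq
      (Nat.coprime_one_left _) N dvd_rfl 1 (mul_one _).symm u (by simp) hu)
  · exact case2 hN h1 h2 (by rw [hNM]; norm_num) hM hsq
  · exact case3 hN h1 h2 (by rw [hNM]; norm_num) hM hsq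

end

end Pool.Agent.H987R2.RGCLS
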