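import Pool.Agent.H27.G.R_seed8.H987R2.RZ_P2
import Pool.Agent.H27.G.R_seed8.H831R2.RZ.P3s

set_option autoImplicit false

/-! Project RZ, task P3: Gauss sums at prime powers. -/

namespace Pool.Agent.H987R2.RZ

open Finset Filter Topology MeasureTheory
open Pool.Agent.H306R2.RZ

noncomputable section

/-- sum of a function with period `N` over `N * M` terms -/
lemma sum_periods (N M : ℕ) (f : ℕ → ℝ) (hf : ∀ r j, f (r + N * j) = f r) :
    ∑ r ∈ range (N * M), f r = (M : ℝ) * ∑ r ∈ range N, f r := by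
  induction M with
  | zero => simp
  | succ M ih =>
    rw [Nat.mul_succ, Finset.sum_range_add, ih]
    have : ∑ x ∈ range N, f (N * M + x) = ∑ r ∈ range N, f r :=
      Finset.sum_congr rfl fun r _ => by rw [add_comm, hf]
    rw [this]
    push_cast
    ring

/-- splitting `r = u + p v` -/
lemma sum_split (p M : ℕ) (f : ℕ → ℝ) :
    ∑ r ∈ range (p * M), f r = ∑ u ∈ range p, ∑ v ∈ range M, f (u + p * v) := by
  induction M with
  | zero => simp
  | succ M ih =>
    rw [Nat.mul_succ, Finset.sum_range_add, ih, ← Finset.sum_add_distrib]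
    refine Finset.sum_congr rfl fun u _ => ?_
    rw [Finset.sum_range_succ, add_comm (p * M) u]

/-- geometric sum of `cas` -/
lemma sum_cas_eq_zero (N : ℕ) (hN : 0 < N) (k : ℤ) (hk : ¬ (N : ℤ) ∣ k) (θ : ℝ) :
    ∑ v ∈ range N, cas (θ + 2 * Real.pi * k * v / N) = 0 := by
  have hN' : (N : ℂ) ≠ 0 := by exact_mod_cast hN.ne'
  set ζ : ℂ := Complex.exp (2 * Real.pi * k / N * Complex.I) with hζ
  have h1 : ζ ≠ 1 := by
    intro h
    rw [hζ, Complex.exp_eq_one_iff] at h
    obtain ⟨n, hn⟩ := h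
    apply hk
    refine ⟨n, ?_⟩
    have hpi : (Real.pi : ℂ) ≠ 0 := by exact_mod_cast Real.pi_ne_zero
    have h2 : (k : ℂ) = (N : ℂ) * n := by
      have h3 : (2 * Real.pi * Complex.I : ℂ) * ((k : ℂ) / N) = (2 * Real.pi * Complex.I : ℂ) * n := by
        calc (2 * Real.pi * Complex.I : ℂ) * ((k : ℂ) / N)
            = 2 * Real.pi * k / N * Complex.I := by ring
          _ = n * (2 * Real.pi * Complex.I) := hn
          _ = _ := by ring
      have h4 : (k : ℂ) / N = n := mul_left_cancel₀ Complex.two_pi_I_ne_zero h3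
      field_simp at h4
      rw [h4]
    exact_mod_cast h2
  have h2 : ζ ^ N = 1 := by
    rw [hζ, ← Complex.exp_nat_mul, Complex.exp_eq_one_iff]
    refine ⟨k, ?_⟩
    field_simp
  have h3 : ∑ v ∈ range N, ζ ^ v = 0 := by
    have := mul_neg_geom_sum ζ N
    rw [h2, sub_self] at this
    rcases mul_eq_zero.1 this with h | h
    · exact absurd (sub_eq_zero.1 h).symm h1
    · exact h
  have h4 : ∑ v ∈ range N, Complex.exp (((θ + 2 * Real.pi * k * v / N : ℝ) : ℂ) * Complex.I) = 0 := by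
    have : ∀ v ∈ range N, Complex.exp (((θ + 2 * Real.pi * k * v / N : ℝ) : ℂ) * Complex.I) =
        Complex.exp ((θ : ℂ) * Complex.I) * ζ ^ v := by
      intro v _
      rw [hζ, ← Complex.exp_nat_mul, ← Complex.exp_add]
      congr 1
      push_cast
      ring
    rw [Finset.sum_congr rfl this, ← Finset.mul_sum, h3, mul_zero]
  have h5 : ∀ t : ℝ, cas t = (Complex.exp ((t : ℂ) * Complex.I)).re +
      (Complex.exp ((t : ℂ) * Complex.I)).im := by
    intro t
    rw [Complex.exp_ofReal_mul_I_re, Complex.exp_ofReal_mul_I_im]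
    rfl
  calc ∑ v ∈ range N, cas (θ + 2 * Real.pi * k * v / N)
      = (∑ v ∈ range N, Complex.exp (((θ + 2 * Real.pi * k * v / N : ℝ) : ℂ) * Complex.I)).re +
        (∑ v ∈ range N, Complex.exp (((θ + 2 * Real.pi * k * v / N : ℝ) : ℂ) * Complex.I)).im := by
        rw [Complex.re_sum, Complex.im_sum, ← Finset.sum_add_distrib]
        exact Finset.sum_congr rfl fun v _ => h5 _
    _ = 0 := by rw [h4]; simp

/-- `r → k r` modulo `n` -/
lemma sum_mul_coprime (n : ℕ) (hn : 0 < n) (k : ℤ) (hk : IsCoprime k (n : ℤ)) (f : ℤ → ℝ)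
    (hf : ∀ r : ℤ, f (r % n) = f r) :
    ∑ r ∈ range n, f (k * r) = ∑ r ∈ range n, f r := by
  have hn' : (n : ℤ) ≠ 0 := by exact_mod_cast hn.ne'
  have hnp : (0 : ℤ) < n := by exact_mod_cast hn
  have hnn : ∀ r : ℕ, 0 ≤ (k * (r : ℤ)) % (n : ℤ) := fun r => Int.emod_nonneg _ hn'
  have hmem : ∀ a ∈ range n, ((k * (a : ℤ)) % (n : ℤ)).toNat ∈ range n := by
    intro a _
    rw [mem_range]
    have := Int.emod_lt_of_pos (k * (a : ℤ)) hnp
    have := hnn a
    omega
  have hinj : ∀ a ∈ range n, ∀ b ∈ range n,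
      ((k * (a : ℤ)) % (n : ℤ)).toNat = ((k * (b : ℤ)) % (n : ℤ)).toNat → a = b := by
    intro a ha b hb heq
    rw [mem_range] at ha hb
    have h1 : (k * (a : ℤ)) % (n : ℤ) = (k * (b : ℤ)) % (n : ℤ) := by
      have := hnn a
      have := hnn b
      omega
    have h2 : (n : ℤ) ∣ k * ((b : ℤ) - a) := by
      rw [mul_sub]
      exact Int.ModEq.dvd h1
    have h3 : (n : ℤ) ∣ (b : ℤ) - a := hk.symm.dvd_of_dvd_mul_left h2
    have h4 : |(b : ℤ) - a| < n := by
      rw [abs_lt]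
      constructor <;> omega
    have h5 := Int.eq_zero_of_abs_lt_dvd h3 h4
    omega
  refine Finset.sum_bij (fun a _ => ((k * (a : ℤ)) % (n : ℤ)).toNat) hmem ?_ ?_ ?_
  · intro a ha b hb heq
    exact hinj a ha b hb heq
  · intro r hr
    obtain ⟨x, hx, hxe⟩ := Finset.surj_on_of_inj_on_of_card_le
      (s := range n) (t := range n)
      (fun a _ => ((k * (a : ℤ)) % (n : ℤ)).toNat) (fun a ha => hmem a ha)
      (fun a b ha hb heq => hinj a ha b hb heq) le_rfl r hr
    exact ⟨x, hx, hxe.symm⟩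
  · intro a _
    rw [Int.toNat_of_nonneg (hnn a), hf]

/-- `Gk k n = (k|n) Gk 1 n` for `k` coprime to `n` -/
lemma Gk_coprime (k : ℤ) (n : ℕ) (hn : 0 < n) (hk : IsCoprime k (n : ℤ)) :
    Gk k n = js k n * Gk 1 n := by
  have hn' : (n : ℝ) ≠ 0 := by positivity
  have hjs : js k n * js k n = 1 := by
    unfold js
    have h1 : jacobiSym k n ^ 2 = 1 :=
      jacobiSym.sq_one (by simpa using Int.isCoprime_iff_gcd_eq_one.1 hk)
    have h2 : ((jacobiSym k n : ℤ) : ℝ) ^ 2 = 1 := by exact_mod_cast h1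
    rw [← sq]
    exact h2
  set fF : ℤ → ℝ := fun r : ℤ => js r n * cas (2 * Real.pi * ((1 : ℤ) : ℝ) * (r : ℝ) / (n : ℝ))
    with hfF
  have hper : ∀ r : ℤ, fF (r % n) = fF r := by
    intro r
    simp only [hfF]
    have h1 : js (r % n) n = js r n := by
      unfold js
      rw [← jacobiSym.mod_left]
    have h2 : (r : ℝ) = ((r % n : ℤ) : ℝ) + (n : ℝ) * ((r / n : ℤ) : ℝ) := by
      have := Int.emod_add_mul_ediv r n
      exact_mod_cast this.symm
    have h3 : 2 * Real.pi * ((1 : ℤ) : ℝ) * (r : ℝ) / (n : ℝ) =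
        2 * Real.pi * ((1 : ℤ) : ℝ) * ((r % n : ℤ) : ℝ) / (n : ℝ) +
          2 * Real.pi * ((r / n : ℤ) : ℝ) := by
      conv_lhs => rw [h2]
      field_simp
      push_cast
      ring
    rw [h1, h3, cas_add_int]
  have h1 := sum_mul_coprime n hn k hk fF hper
  have h2 : js k n * Gk k n = Gk 1 n := by
    have h3 : Gk 1 n = ∑ r ∈ range n, fF ((r : ℕ) : ℤ) := by
      unfold Gk
      simp [hfF]
    rw [h3, ← h1]
    unfold Gk
    rw [Finset.mul_sum]
    refine Finset.sum_congr rfl fun r _ => ?_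
    have h4 : js (k * (r : ℤ)) n = js k n * js (r : ℤ) n := by
      unfold js
      rw [jacobiSym.mul_left]
      push_cast
      ring
    simp only [hfF, h4]
    have h5 : 2 * Real.pi * ((1 : ℤ) : ℝ) * ((k * (r : ℤ) : ℤ) : ℝ) / (n : ℝ) =
        2 * Real.pi * (k : ℝ) * (r : ℝ) / (n : ℝ) := by
      push_cast
      ring
    rw [h5]
    ring
  rw [← h2, ← mul_assoc, hjs, one_mul]

lemma js_pow (r : ℤ) (p β : ℕ) [NeZero p] : js r (p ^ β) = js r p ^ β := by
  unfold js
  rw [jacobiSym.pow_right]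
  push_cast
  rfl

lemma js_add_mul (p : ℕ) (r j : ℕ) : js ((r + p * j : ℕ) : ℤ) p = js (r : ℤ) p := by
  unfold js
  rw [jacobiSym.mod_left, jacobiSym.mod_left (r : ℤ)]
  congr 1
  push_cast
  simp [Int.add_emod]

/-- sum of the Legendre symbol -/
lemma sum_js (p : ℕ) (hp : p.Prime) (hp2 : p ≠ 2) : ∑ r ∈ range p, js (r : ℤ) p = 0 := by
  have : Fact p.Prime := ⟨hp⟩
  have h1 : ∑ a : ZMod p, quadraticChar (ZMod p) a = 0 := by
    apply quadraticChar_sum_zero
    rw [ZMod.ringChar_zmod_n]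
    exact hp2
  have h2 : ∑ r ∈ range p, (jacobiSym (r : ℤ) p) = 0 := by
    rw [← h1]
    refine Finset.sum_bij (fun r _ => (r : ZMod p)) (fun _ _ => mem_univ _) ?_ ?_ ?_
    · intro a ha b hb hab
      rw [mem_range] at ha hb
      have := (ZMod.natCast_eq_natCast_iff' a b p).1 hab
      rwa [Nat.mod_eq_of_lt ha, Nat.mod_eq_of_lt hb] at this
    · intro x _
      exact ⟨x.val, mem_range.2 (ZMod.val_lt x), ZMod.natCast_zmod_val x⟩
    · intro r _
      rw [← jacobiSym.legendreSym.to_jacobiSym]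
      simp [legendreSym]
  unfold js
  exact_mod_cast congrArg (fun z : ℤ => (z : ℝ)) h2

/-- `Σ (r|p)^β`, `β` even -/
lemma js_sq (p : ℕ) (hp : p.Prime) (r : ℕ) (β : ℕ) (hβ : Even β) (hβ0 : 1 ≤ β) :
    js (r : ℤ) p ^ β = if p ∣ r then 0 else 1 := by
  have : NeZero p := ⟨hp.ne_zero⟩
  split_ifs with h
  · have : jacobiSym (r : ℤ) p = 0 := by
      rw [jacobiSym.eq_zero_iff]
      refine ⟨hp.ne_zero, ?_⟩
      rw [Int.gcd_natCast_natCast]
      intro h1
      have := Nat.dvd_gcd h (dvd_refl p)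
      rw [h1] at this
      exact hp.one_lt.ne' (Nat.dvd_one.1 this)
    unfold js
    rw [this]
    simp
    omega
  · have h1 : r.Coprime p := (Nat.Prime.coprime_iff_not_dvd hp).2 h |>.symm
    have h2 := js_sq_one r p h1
    obtain ⟨c, hc⟩ := hβ
    rw [hc, ← two_mul, pow_mul, sq, h2, one_pow]

lemma cas_zero : cas 0 = 1 := by simp [cas]

theorem P3_of (hP3s : ∀ p : ℕ, p.Prime → p ≠ 2 → Gk 1 p = Real.sqrt p)
    (p : ℕ) (hp : p.Prime) (hp2 : p ≠ 2) (α β : ℕ) (hβ : 1 ≤ β) (k : ℤ)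
    (hk : ¬ (p : ℤ) ∣ k) :
    Gk ((p : ℤ) ^ α * k) (p ^ β) =
      if β ≤ α then (if Even β then ((p ^ β).totient : ℝ) else 0)
      else if β = α + 1 then
        (if Even β then -(p : ℝ) ^ α else js k p * (p : ℝ) ^ α * Real.sqrt p)
      else 0 := by
  have : NeZero p := ⟨hp.ne_zero⟩
  have hp0 : 0 < p := hp.pos
  have hpR : (p : ℝ) ≠ 0 := by positivity
  have hsucc : ∃ b, β = b + 1 := ⟨β - 1, by omega⟩
  obtain ⟨b, rfl⟩ := hsucc
  unfold Gk
  split_ifs with h1 h2 h3 h4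
  · -- `β ≤ α`, `β` even
    have e1 : ∀ r ∈ range (p ^ (b + 1)), js ((r : ℕ) : ℤ) (p ^ (b + 1)) *
        cas (2 * Real.pi * (((p : ℤ) ^ α * k : ℤ) : ℝ) * (r : ℝ) / ((p ^ (b + 1) : ℕ) : ℝ)) =
        if p ∣ r then 0 else 1 := by
      intro r _
      obtain ⟨c, hc⟩ := Nat.exists_eq_add_of_le h1
      have : 2 * Real.pi * (((p : ℤ) ^ α * k : ℤ) : ℝ) * (r : ℝ) / ((p ^ (b + 1) : ℕ) : ℝ) =
          0 + 2 * Real.pi * (((p : ℤ) ^ c * k * r : ℤ) : ℝ) := by
        rw [hc]
        push_cast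
        rw [pow_add (p : ℝ) (b + 1) c]
        field_simp
        ring
      rw [this, cas_add_int, cas_zero, mul_one, js_pow, js_sq p hp r (b + 1) h2 hβ]
    rw [Finset.sum_congr rfl e1]
    rw [Nat.totient_prime_pow_succ hp]
    have e2 : ∑ r ∈ range (p ^ (b + 1)), (if p ∣ r then (0 : ℝ) else 1) =
        ((p ^ b : ℕ) : ℝ) * ∑ r ∈ range p, (if p ∣ r then (0 : ℝ) else 1) := by
      rw [pow_succ, mul_comm]
      exact sum_periods p (p ^ b) _ (fun r j => by
        simp [Nat.dvd_add_left (dvd_mul_right p j)])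
    rw [e2]
    have e3 : ∑ r ∈ range p, (if p ∣ r then (0 : ℝ) else 1) = (p : ℝ) - 1 := by
      obtain ⟨q, rfl⟩ : ∃ q, p = q + 1 := ⟨p - 1, by omega⟩
      rw [Finset.sum_range_succ']
      have : ∀ r ∈ range q, (if (q + 1) ∣ (r + 1) then (0 : ℝ) else 1) = 1 := by
        intro r hr
        rw [mem_range] at hr
        rw [if_neg]
        intro h
        have := Nat.le_of_dvd (by omega) h
        omega
      rw [Finset.sum_congr rfl this]
      simp
    rw [e3]
    have : 1 ≤ p := hp0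
    push_cast [this]
    ring
  · -- `β ≤ α`, `β` odd
    have e1 : ∀ r ∈ range (p ^ (b + 1)), js ((r : ℕ) : ℤ) (p ^ (b + 1)) *
        cas (2 * Real.pi * (((p : ℤ) ^ α * k : ℤ) : ℝ) * (r : ℝ) / ((p ^ (b + 1) : ℕ) : ℝ)) =
        js ((r : ℕ) : ℤ) p := by
      intro r _
      obtain ⟨c, hc⟩ := Nat.exists_eq_add_of_le h1
      have : 2 * Real.pi * (((p : ℤ) ^ α * k : ℤ) : ℝ) * (r : ℝ) / ((p ^ (b + 1) : ℕ) : ℝ) =
          0 + 2 * Real.pi * (((p : ℤ) ^ c * k * r : ℤ) : ℝ) := by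
        rw [hc]
        push_cast
        rw [pow_add (p : ℝ) (b + 1) c]
        field_simp
        ring
      rw [this, cas_add_int, cas_zero, mul_one, js_pow]
      have hodd : Odd (b + 1) := Nat.not_even_iff_odd.1 h2
      have hbe : Even b := by
        rcases Nat.even_or_odd b with h | h
        · exact h
        · exact absurd (h.add_odd odd_one) h2
      rw [pow_succ]
      rcases Nat.eq_zero_or_pos b with hb | hb
      · rw [hb]; simp
      · rw [js_sq p hp r b hbe hb]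
        split_ifs with hd
        · have : js ((r : ℕ) : ℤ) p = 0 := by
            have h5 := js_sq p hp r 2 (by decide) (by norm_num)
            rw [if_pos hd] at h5
            exact pow_eq_zero_iff (two_ne_zero) |>.1 h5
          rw [this]; simp
        · simp
    rw [Finset.sum_congr rfl e1]
    have e2 : ∑ r ∈ range (p ^ (b + 1)), js ((r : ℕ) : ℤ) p =
        ((p ^ b : ℕ) : ℝ) * ∑ r ∈ range p, js ((r : ℕ) : ℤ) p := by
      rw [pow_succ, mul_comm]
      exact sum_periods p (p ^ b) (fun r => js ((r : ℕ) : ℤ) p) (fun r j => js_add_mul p r j)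
    rw [e2, sum_js p hp hp2, mul_zero]
  · -- `β = α + 1`, even
    have hα : α = b := by omega
    subst hα
    have e1 : ∀ r ∈ range (p ^ (α + 1)), js ((r : ℕ) : ℤ) (p ^ (α + 1)) *
        cas (2 * Real.pi * (((p : ℤ) ^ α * k : ℤ) : ℝ) * (r : ℝ) / ((p ^ (α + 1) : ℕ) : ℝ)) =
        (if p ∣ r then 0 else 1) * cas (0 + 2 * Real.pi * (k : ℝ) * (r : ℝ) / (p : ℝ)) := by
      intro r _
      rw [js_pow, js_sq p hp r (α + 1) h4 hβ]
      congr 2
      push_cast
      rw [pow_succ]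
      field_simp
      ring
    rw [Finset.sum_congr rfl e1]
    have e2 : ∑ r ∈ range (p ^ (α + 1)),
        (if p ∣ r then (0 : ℝ) else 1) * cas (0 + 2 * Real.pi * (k : ℝ) * (r : ℝ) / (p : ℝ)) =
        ((p ^ α : ℕ) : ℝ) * ∑ r ∈ range p,
        (if p ∣ r then (0 : ℝ) else 1) * cas (0 + 2 * Real.pi * (k : ℝ) * (r : ℝ) / (p : ℝ)) := by
      rw [pow_succ, mul_comm]
      refine sum_periods p (p ^ α) (fun r => (if p ∣ r then (0 : ℝ) else 1) *
        cas (0 + 2 * Real.pi * (k : ℝ) * (r : ℝ) / (p : ℝ))) (fun r j => ?_)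
      have g1 : 0 + 2 * Real.pi * (k : ℝ) * ((r + p * j : ℕ) : ℝ) / (p : ℝ) =
          (0 + 2 * Real.pi * (k : ℝ) * (r : ℝ) / (p : ℝ)) + 2 * Real.pi * ((k * j : ℤ) : ℝ) := by
        push_cast
        field_simp
        ring
      simp only [g1, cas_add_int, Nat.dvd_add_left (dvd_mul_right p j)]
    rw [e2]
    have e3 : ∑ r ∈ range p,
        (if p ∣ r then (0 : ℝ) else 1) * cas (0 + 2 * Real.pi * (k : ℝ) * (r : ℝ) / (p : ℝ)) = -1 := by
      have g2 := sum_cas_eq_zero p hp0 k hk 0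
      have g3 : ∀ r ∈ range p,
          (if p ∣ r then (0 : ℝ) else 1) * cas (0 + 2 * Real.pi * (k : ℝ) * (r : ℝ) / (p : ℝ)) =
          cas (0 + 2 * Real.pi * (k : ℝ) * (r : ℝ) / (p : ℝ)) - (if r = 0 then 1 else 0) := by
        intro r hr
        rw [mem_range] at hr
        rcases Nat.eq_zero_or_pos r with h0 | h0
        · subst h0
          simp [cas_zero]
        · have : ¬ p ∣ r := fun h => absurd (Nat.le_of_dvd h0 h) (by omega)
          rw [if_neg this, if_neg h0.ne']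
          ring
      rw [Finset.sum_congr rfl g3, Finset.sum_sub_distrib, g2]
      simp [hp0]
    rw [e3]
    push_cast
    ring
  · -- `β = α + 1`, odd
    have hα : α = b := by omega
    subst hα
    have hodd : Odd (α + 1) := Nat.not_even_iff_odd.1 h4
    have hbe : Even α := by
      rcases Nat.even_or_odd α with h | h
      · exact h
      · exact absurd (h.add_odd odd_one) h4
    have e1 : ∀ r ∈ range (p ^ (α + 1)), js ((r : ℕ) : ℤ) (p ^ (α + 1)) *
        cas (2 * Real.pi * (((p : ℤ) ^ α * k : ℤ) : ℝ) * (r : ℝ) / ((p ^ (α + 1) : ℕ) : ℝ)) =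
        js ((r : ℕ) : ℤ) p * cas (2 * Real.pi * (k : ℝ) * (r : ℝ) / (p : ℝ)) := by
      intro r _
      have g0 : js ((r : ℕ) : ℤ) (p ^ (α + 1)) = js ((r : ℕ) : ℤ) p := by
        rw [js_pow, pow_succ]
        rcases Nat.eq_zero_or_pos α with hb | hb
        · rw [hb]; simp
        · rw [js_sq p hp r α hbe hb]
          split_ifs with hd
          · have : js ((r : ℕ) : ℤ) p = 0 := by
              have h5 := js_sq p hp r 2 (by decide) (by norm_num)
              rw [if_pos hd] at h5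
              exact pow_eq_zero_iff (two_ne_zero) |>.1 h5
            rw [this]; simp
          · simp
      rw [g0]
      congr 2
      push_cast
      rw [pow_succ]
      field_simp
    rw [Finset.sum_congr rfl e1]
    have e2 : ∑ r ∈ range (p ^ (α + 1)),
        js ((r : ℕ) : ℤ) p * cas (2 * Real.pi * (k : ℝ) * (r : ℝ) / (p : ℝ)) =
        ((p ^ α : ℕ) : ℝ) * ∑ r ∈ range p,
        js ((r : ℕ) : ℤ) p * cas (2 * Real.pi * (k : ℝ) * (r : ℝ) / (p : ℝ)) := by
      rw [pow_succ, mul_comm]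
      refine sum_periods p (p ^ α) (fun r => js ((r : ℕ) : ℤ) p *
        cas (2 * Real.pi * (k : ℝ) * (r : ℝ) / (p : ℝ))) (fun r j => ?_)
      have g1 : 2 * Real.pi * (k : ℝ) * ((r + p * j : ℕ) : ℝ) / (p : ℝ) =
          (2 * Real.pi * (k : ℝ) * (r : ℝ) / (p : ℝ)) + 2 * Real.pi * ((k * j : ℤ) : ℝ) := by
        push_cast
        field_simp
      simp only [g1, cas_add_int, js_add_mul]
    rw [e2]
    have e3 : ∑ r ∈ range p,
        js ((r : ℕ) : ℤ) p * cas (2 * Real.pi * (k : ℝ) * (r : ℝ) / (p : ℝ)) =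
        js k p * Real.sqrt p := by
      have hcop : IsCoprime k (p : ℤ) := by
        rw [Int.isCoprime_iff_gcd_eq_one, Int.gcd_comm]
        have := (Nat.Prime.coprime_iff_not_dvd hp (n := k.natAbs)).2 (fun h => hk (by
          exact Int.natCast_dvd.2 h))
        simpa [Int.gcd, Nat.Coprime] using this
      have := Gk_coprime k p hp0 hcop
      rw [hP3s p hp hp2] at this
      rw [← this]
      rfl
    rw [e3]
    push_cast
    ring
  · -- `β ≥ α + 2`
    obtain ⟨g, hg⟩ : ∃ g, b = α + (g + 1) := ⟨b - α - 1, by omega⟩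
    subst hg
    -- period `p ^ (g + 2)`
    have e1 : ∀ r ∈ range (p ^ (α + (g + 1) + 1)), js ((r : ℕ) : ℤ) (p ^ (α + (g + 1) + 1)) *
        cas (2 * Real.pi * (((p : ℤ) ^ α * k : ℤ) : ℝ) * (r : ℝ) /
          ((p ^ (α + (g + 1) + 1) : ℕ) : ℝ)) =
        js ((r : ℕ) : ℤ) p ^ (α + (g + 1) + 1) *
          cas (2 * Real.pi * (k : ℝ) * (r : ℝ) / ((p : ℝ) ^ (g + 2))) := by
      intro r _
      rw [js_pow]
      congr 2
      push_cast
      have : (p : ℝ) ^ (α + (g + 1) + 1) = (p : ℝ) ^ α * (p : ℝ) ^ (g + 2) := by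
        rw [← pow_add]; congr 1
      rw [this]
      field_simp
    rw [Finset.sum_congr rfl e1]
    have e2 : ∑ r ∈ range (p ^ (α + (g + 1) + 1)),
        js ((r : ℕ) : ℤ) p ^ (α + (g + 1) + 1) *
          cas (2 * Real.pi * (k : ℝ) * (r : ℝ) / ((p : ℝ) ^ (g + 2))) =
        ((p ^ α : ℕ) : ℝ) * ∑ r ∈ range (p ^ (g + 2)),
        js ((r : ℕ) : ℤ) p ^ (α + (g + 1) + 1) *
          cas (2 * Real.pi * (k : ℝ) * (r : ℝ) / ((p : ℝ) ^ (g + 2))) := by
      have hpw : p ^ (α + (g + 1) + 1) = p ^ (g + 2) * p ^ α := by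
        rw [← pow_add]; congr 1; ring
      rw [hpw]
      refine sum_periods (p ^ (g + 2)) (p ^ α) (fun r => js ((r : ℕ) : ℤ) p ^ (α + (g + 1) + 1) *
          cas (2 * Real.pi * (k : ℝ) * (r : ℝ) / ((p : ℝ) ^ (g + 2)))) (fun r j => ?_)
      have g1 : 2 * Real.pi * (k : ℝ) * ((r + p ^ (g + 2) * j : ℕ) : ℝ) / ((p : ℝ) ^ (g + 2)) =
          (2 * Real.pi * (k : ℝ) * (r : ℝ) / ((p : ℝ) ^ (g + 2))) +
            2 * Real.pi * ((k * j : ℤ) : ℝ) := by
        push_cast
        field_simp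
      have g2 : js ((r + p ^ (g + 2) * j : ℕ) : ℤ) p = js (r : ℤ) p := by
        have : r + p ^ (g + 2) * j = r + p * (p ^ (g + 1) * j) := by ring
        rw [this, js_add_mul]
      simp only [g1, cas_add_int, g2]
    rw [e2]
    have e3 : ∑ r ∈ range (p ^ (g + 2)),
        js ((r : ℕ) : ℤ) p ^ (α + (g + 1) + 1) *
          cas (2 * Real.pi * (k : ℝ) * (r : ℝ) / ((p : ℝ) ^ (g + 2))) = 0 := by
      have hpw : p ^ (g + 2) = p * p ^ (g + 1) := by ring
      rw [hpw, sum_split]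
      refine Finset.sum_eq_zero fun u _ => ?_
      have g3 : ∀ v ∈ range (p ^ (g + 1)),
          js ((u + p * v : ℕ) : ℤ) p ^ (α + (g + 1) + 1) *
            cas (2 * Real.pi * (k : ℝ) * ((u + p * v : ℕ) : ℝ) / ((p : ℝ) ^ (g + 2))) =
          js ((u : ℕ) : ℤ) p ^ (α + (g + 1) + 1) *
            cas (2 * Real.pi * (k : ℝ) * (u : ℝ) / ((p : ℝ) ^ (g + 2)) +
              2 * Real.pi * k * v / ((p ^ (g + 1) : ℕ) : ℝ)) := by
        intro v _
        rw [js_add_mul]
        congr 2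
        push_cast
        have : (p : ℝ) ^ (g + 2) = (p : ℝ) ^ (g + 1) * p := by ring
        rw [this]
        field_simp
      rw [Finset.sum_congr rfl g3, ← Finset.mul_sum,
        sum_cas_eq_zero (p ^ (g + 1)) (pow_pos hp0 _) k ?_ _, mul_zero]
      intro h
      apply hk
      refine dvd_trans ?_ h
      push_cast
      exact dvd_pow_self _ (by omega)
    rw [e3, mul_zero]

theorem P3 (p : ℕ) (hp : p.Prime) (hp2 : p ≠ 2) (α β : ℕ) (hβ : 1 ≤ β) (k : ℤ)
    (hk : ¬ (p : ℤ) ∣ k) :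
    Gk ((p : ℤ) ^ α * k) (p ^ β) =
      if β ≤ α then (if Even β then ((p ^ β).totient : ℝ) else 0)
      else if β = α + 1 then
        (if Even β then -(p : ℝ) ^ α else js k p * (p : ℝ) ^ α * Real.sqrt p)
      else 0 :=
  P3_of Pool.Agent.H831R2.RZ.P3s p hp hp2 α β hβ k hk

end

end Pool.Agent.H987R2.RZ
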